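import Mathlib
import Pool.Agent.TH506.PMU.Alg
import Pool.Agent.TH506.PMU.Bad

set_option autoImplicit false

namespace Pool.Agent.Results.MP_8571ba_co.AlmostAllPrimes

open Finset Filter Topology Pool.Agent.TH506.APD Pool.Agent.TH506.PMU Pool.Agent.H152R2

/-- `D` is a cyclic planar difference set of order `n`: a set of `n + 1` residues modulo
`n ^ 2 + n + 1` such that every nonzero residue is a difference of two elements of `D` in exactly
one way. -/
def IsCyclicPlanarDifferenceSet (n : ℕ) (D : Finset (ZMod (n ^ 2 + n + 1))) : Prop :=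
  D.card = n + 1 ∧
  ∀ x : ZMod (n ^ 2 + n + 1), x ≠ 0 →
    ∃! q : ZMod (n ^ 2 + n + 1) × ZMod (n ^ 2 + n + 1), q.1 ∈ D ∧ q.2 ∈ D ∧ q.1 - q.2 = x

/-- The multipliers of `D`: the units `t` for which `t * D` is a translate `D + s` of `D`. -/
def multipliers (n : ℕ) (D : Finset (ZMod (n ^ 2 + n + 1))) : Set (ZMod (n ^ 2 + n + 1))ˣ :=
  {t | ∃ s : ZMod (n ^ 2 + n + 1),
    D.image (fun d => (t : ZMod (n ^ 2 + n + 1)) * d) = D.image (fun d => d + s)}

/-- The subgroup of the units modulo `n ^ 2 + n + 1` generated by the primes dividing `n`. -/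
def primeGroup (n : ℕ) : Subgroup (ZMod (n ^ 2 + n + 1))ˣ :=
  Subgroup.closure {u | ∃ p : ℕ, p.Prime ∧ p ∣ n ∧
    (u : ZMod (n ^ 2 + n + 1)) = (p : ZMod (n ^ 2 + n + 1))}

/-- The assertion of Q1 at the order `n`: every cyclic planar difference set of order `n` has
multiplier group generated by the primes dividing `n`. -/
def Q1At (n : ℕ) : Prop :=
  ∀ D : Finset (ZMod (n ^ 2 + n + 1)), IsCyclicPlanarDifferenceSet n D →
    multipliers n D = (primeGroup n : Set (ZMod (n ^ 2 + n + 1))ˣ)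

lemma good_order {p : ℕ} (hp : p.Prime) (hg : GoodN p) : Q1At p := by
  classical
  obtain ⟨z, hE, hq⟩ := hg
  intro D hD
  have h : IsPDS p D := ⟨Nat.card_zmod _, hD.1, hD.2⟩
  have hcop : Nat.Coprime p (p ^ 2 + p + 1) := by
    have h1 : p ^ 2 + p + 1 = 1 + p * (p + 1) := by ring
    rw [h1, Nat.coprime_add_mul_left_right]
    exact Nat.coprime_one_right p
  obtain ⟨P, hP⟩ : ∃ P : (ZMod (p ^ 2 + p + 1))ˣ, (P : ZMod (p ^ 2 + p + 1)) = p :=
    ⟨ZMod.unitOfCoprime p hcop, ZMod.coe_unitOfCoprime p hcop⟩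
  have hset : {u : (ZMod (p ^ 2 + p + 1))ˣ | ∃ q : ℕ, q.Prime ∧ q ∣ p ∧
      (u : ZMod (p ^ 2 + p + 1)) = (q : ZMod (p ^ 2 + p + 1))} = {P} := by
    ext u
    rw [Set.mem_singleton_iff]
    constructor
    · rintro ⟨q, hq1, hq2, hq3⟩
      rw [(Nat.prime_dvd_prime_iff_eq hq1 hp).1 hq2] at hq3
      exact Units.ext (hq3.trans hP.symm)
    · intro hu
      rw [hu]
      exact ⟨p, hp, dvd_rfl, hP⟩
  unfold primeGroup
  rw [hset, ← Subgroup.zpowers_eq_closure]
  ext t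
  constructor
  · intro ht
    obtain ⟨i, hi⟩ := mult_group hp h hE hq t ht P hP
    rw [hi]
    exact Subgroup.pow_mem _ (Subgroup.mem_zpowers P) i
  · intro ht
    obtain ⟨i, hi⟩ := mem_powers_iff_mem_zpowers.2 ht
    simp only at hi
    rw [← hi]
    exact hall hp h P hP i

/-- For almost all primes `p`, every cyclic planar difference set of order `p` has multiplier group
generated by `p`. -/
theorem result :
    Tendsto (fun X : ℕ => ({p : ℕ | p.Prime ∧ p ≤ X ∧ Q1At p}.ncard : ℝ) /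
      ({p : ℕ | p.Prime ∧ p ≤ X}.ncard : ℝ)) atTop (𝓝 1) := by
  classical
  rw [Metric.tendsto_atTop]
  intro ε hε
  obtain ⟨X1, h1⟩ := notGood_small (η := ε / 4) (by positivity)
  obtain ⟨X4, h4⟩ := Metric.tendsto_atTop.1 pnt_nat (1 / 2) (by positivity)
  refine ⟨X1 + X4 + 2, fun X hX => ?_⟩
  have e1 := h1 X (by omega)
  have e4 := h4 X (by omega)
  have hXr : (0 : ℝ) < X := by exact_mod_cast (by omega : 0 < X)
  have hX1 : (1 : ℝ) < X := by exact_mod_cast (by omega : 1 < X)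
  have hlogX0 : 0 < Real.log X := Real.log_pos hX1
  have hN : {p : ℕ | p.Prime ∧ p ≤ X ∧ Q1At p}.ncard =
      #(((Icc 2 X).filter Nat.Prime).filter (fun p => Q1At p)) := by
    rw [← Set.ncard_coe_finset]
    congr 1
    ext n
    simp only [Set.mem_ofPred_eq, coe_filter, mem_filter, mem_Icc]
    constructor
    · rintro ⟨h5, h6, h7⟩; exact ⟨⟨⟨h5.two_le, h6⟩, h5⟩, h7⟩
    · rintro ⟨⟨⟨_, h6⟩, h5⟩, h7⟩; exact ⟨h5, h6, h7⟩
  have hM : {p : ℕ | p.Prime ∧ p ≤ X}.ncard = #((Icc 2 X).filter Nat.Prime) := by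
    rw [← Set.ncard_coe_finset]
    congr 1
    ext n
    simp only [Set.mem_ofPred_eq, coe_filter, mem_Icc]
    constructor
    · rintro ⟨h5, h6⟩; exact ⟨⟨h5.two_le, h6⟩, h5⟩
    · rintro ⟨⟨_, h6⟩, h5⟩; exact ⟨h5, h6⟩
  have hpi : Nat.primeCounting X = #((Icc 2 X).filter Nat.Prime) := by
    unfold Nat.primeCounting Nat.primeCounting'
    rw [Nat.count_eq_card_filter_range]
    congr 1
    ext m
    simp only [mem_filter, mem_range, mem_Icc]
    constructor
    · rintro ⟨h5, h6⟩; exact ⟨⟨h6.two_le, by omega⟩, h6⟩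
    · rintro ⟨h5, h6⟩; exact ⟨by omega, h6⟩
  have hsum := Finset.card_filter_add_card_filter_not
    (s := (Icc 2 X).filter Nat.Prime) (fun p => Q1At p)
  have hbad : #(((Icc 2 X).filter Nat.Prime).filter (fun p => ¬ Q1At p)) ≤
      #((Icc 2 X).filter (fun n => n.Prime ∧ ¬ GoodN n)) := by
    apply card_le_card
    intro n hn
    rw [mem_filter, mem_filter] at hn
    rw [mem_filter]
    exact ⟨hn.1.1, hn.1.2, fun hg => hn.2 (good_order hn.1.2 hg)⟩
  have hbad' : (#(((Icc 2 X).filter Nat.Prime).filter (fun p => ¬ Q1At p)) : ℝ) ≤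
      #((Icc 2 X).filter (fun n => n.Prime ∧ ¬ GoodN n)) := by exact_mod_cast hbad
  obtain ⟨N, hN'⟩ : ∃ N : ℕ, N = #(((Icc 2 X).filter Nat.Prime).filter (fun p => Q1At p)) := ⟨_, rfl⟩
  obtain ⟨b, hb'⟩ : ∃ b : ℕ, b = #(((Icc 2 X).filter Nat.Prime).filter (fun p => ¬ Q1At p)) := ⟨_, rfl⟩
  obtain ⟨M, hM'⟩ : ∃ M : ℕ, M = #((Icc 2 X).filter Nat.Prime) := ⟨_, rfl⟩
  have hsum' : N + b = M := by
    rw [hN', hb', hM', ← hsum]
  rw [hN, hM, ← hN', ← hM']
  rw [← hb'] at hbad'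
  rw [hpi, ← hM'] at e4
  have e5 : (b : ℝ) * Real.log X ≤ ε / 4 * X := by
    refine (mul_le_mul_of_nonneg_right hbad' hlogX0.le).trans ?_
    convert e1
  rw [Real.dist_eq, abs_lt] at e4
  have e6 : (X : ℝ) / 2 < M * Real.log X := by
    have e7 : 1 / 2 < (M : ℝ) * Real.log X / X := by linarith [e4.1]
    rw [lt_div_iff₀ hXr] at e7
    linarith
  have hMpos : (0 : ℝ) < M := by
    by_contra hcon
    push Not at hcon
    have e8 : (M : ℝ) * Real.log X ≤ 0 := mul_nonpos_of_nonpos_of_nonneg hcon hlogX0.le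
    linarith
  have hval : (N : ℝ) / M = 1 - b / M := by
    have e9 : (M : ℝ) = N + b := by rw [← hsum']; push_cast; ring
    rw [eq_sub_iff_add_eq, ← add_div, ← e9, div_self hMpos.ne']
  have hbM : (b : ℝ) / M ≤ ε / 2 := by
    rw [div_le_iff₀ hMpos]
    have e10 : (b : ℝ) * Real.log X ≤ (ε / 2 * M) * Real.log X := by
      calc (b : ℝ) * Real.log X ≤ ε / 2 * (X / 2) := by linarith
        _ ≤ ε / 2 * (M * Real.log X) := by gcongr
        _ = _ := by ring
    exact le_of_mul_le_mul_right e10 hlogX0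
  have hb0 : 0 ≤ (b : ℝ) / M := by positivity
  rw [Real.dist_eq, abs_lt, hval]
  constructor <;> linarith

end Pool.Agent.Results.MP_8571ba_co.AlmostAllPrimes
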